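import Mathlib

set_option autoImplicit false

namespace Pool.Agent.Results.MP_c103f8_lc.NoSmallProgramming

open scoped ENNReal

/-- Positions of the square lattice. -/
abbrev Pos : Type := ℤ × ℤ

/-- A glue: a label and a strength. -/
abbrev Glue : Type := ℕ × ℕ

/-- A tile type: four glues. -/
structure TileType where
  north : Glue
  east : Glue
  south : Glue
  west : Glue
deriving DecidableEq

/-- An assembly of a system with `k` tile types: a partial map from positions to the (indices
of the) tile types. -/
abbrev Assembly (k : ℕ) : Type := Pos → Option (Fin k)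

/-- The strength of the interaction of two abutting glues. -/
def glueStrength (g g' : Glue) : ℕ := if g = g' then g.2 else 0

/-- The strength of the bond of an assembly between two positions; `tile` lists the tile
types. -/
def bond {k : ℕ} (tile : Fin k → TileType) (α : Assembly k) (p q : Pos) : ℕ :=
  match α p, α q with
  | some a, some b =>
    if q = p + (0, 1) then glueStrength (tile a).north (tile b).south
    else if q = p + (1, 0) then glueStrength (tile a).east (tile b).west
    else if q = p + (0, -1) then glueStrength (tile a).south (tile b).north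
    else if q = p + (-1, 0) then glueStrength (tile a).west (tile b).east
    else 0
  | _, _ => 0

/-- The four neighbours of a position. -/
def nbrs (p : Pos) : Finset Pos := {p + (0, 1), p + (1, 0), p + (0, -1), p + (-1, 0)}

/-- The domain of an assembly. -/
def dom {k : ℕ} (α : Assembly k) : Set Pos := {p | α p ≠ none}

/-- Stability at temperature two: every cut (given by its finite side `A`) of the binding graph
has total strength at least two. -/
def Stable {k : ℕ} (tile : Fin k → TileType) (α : Assembly k) : Prop :=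
  ∀ A : Finset Pos, A.Nonempty → (∀ p ∈ A, p ∈ dom α) → (∃ q ∈ dom α, q ∉ A) →
    2 ≤ ∑ p ∈ A, ∑ q ∈ nbrs p, if q ∈ A then 0 else bond tile α p q

/-- The assembly with a tile added. -/
def add {k : ℕ} (α : Assembly k) (p : Pos) (t : Fin k) : Assembly k :=
  Function.update α p (some t)

/-- A tile system at temperature two: finitely many tile types, numbered `0, ..., k - 1`, and
a one-tile seed. -/
structure TileSystem where
  k : ℕ
  tile : Fin k → TileType
  seedPos : Pos
  seedTile : Fin k

/-- The seed assembly. -/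
def TileSystem.seed (S : TileSystem) : Assembly S.k := add (fun _ => none) S.seedPos S.seedTile

/-- The tile `t` can be added stably to `α` at the empty position `p`, adjacent to `α`. -/
def CanBind (S : TileSystem) (α : Assembly S.k) (p : Pos) (t : Fin S.k) : Prop :=
  α p = none ∧ (∃ q ∈ nbrs p, q ∈ dom α) ∧ Stable S.tile (add α p t)

/-- The frontier of an assembly. -/
def frontier (S : TileSystem) (α : Assembly S.k) : Set Pos := {p | ∃ t, CanBind S α p t}

/-- No tile can be added. -/
def Terminal (S : TileSystem) (α : Assembly S.k) : Prop := frontier S α = ∅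

open Classical in
/-- The tile types that can bind at `p`. -/
noncomputable def binders (S : TileSystem) (α : Assembly S.k) (p : Pos) :
    Finset (Fin S.k) := Finset.univ.filter fun t => CanBind S α p t

open Classical in
/-- The probability of the step that adds `t` at `p`: the frontier position is chosen uniformly,
the tile type proportionally to its concentration. -/
noncomputable def stepProb (S : TileSystem) (ρ : Fin S.k → NNReal) (α : Assembly S.k) (p : Pos)
    (t : Fin S.k) : ℝ≥0∞ :=
  if CanBind S α p t then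
    ((frontier S α).encard : ℝ≥0∞)⁻¹ * ((ρ t : ℝ≥0∞) / ∑ t' ∈ binders S α p, (ρ t' : ℝ≥0∞))
  else 0

/-- The assembly reached from `α` by the list of additions `w`. -/
def run {k : ℕ} : Assembly k → List (Pos × Fin k) → Assembly k
  | α, [] => α
  | α, (p, t) :: w => run (add α p t) w

/-- The product of the step probabilities. -/
noncomputable def weight (S : TileSystem) (ρ : Fin S.k → NNReal) :
    Assembly S.k → List (Pos × Fin S.k) → ℝ≥0∞
  | _, [] => 1
  | α, (p, t) :: w => stepProb S ρ α p t * weight S ρ (add α p t) w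

open Classical in
/-- The probability that the random terminal assembly lies in `E`: the sum over all assembly
sequences from the seed that end in a terminal assembly of `E`. -/
noncomputable def prob (S : TileSystem) (ρ : Fin S.k → NNReal)
    (E : Set (Assembly S.k)) : ℝ≥0∞ :=
  ∑' w : List (Pos × Fin S.k),
    if Terminal S (run S.seed w) ∧ run S.seed w ∈ E then weight S ρ S.seed w else 0

/-! ### Proof -/

theorem tsum_list {A : Type*} (F : List A → ℝ≥0∞) :
    ∑' w, F w = F [] + ∑' a, ∑' w, F (a :: w) := by
  have hinj : Function.Injective fun p : A × List A => p.1 :: p.2 := by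
    rintro ⟨a, w⟩ ⟨b, v⟩ h
    simpa using h
  have h0 : ∑' w, F w = (∑' w, Set.indicator {[]} F w) + ∑' w, Set.indicator {[]}ᶜ F w := by
    rw [← ENNReal.tsum_add]
    refine tsum_congr fun w => ?_
    exact (congrFun (Set.indicator_self_add_compl {[]} F) w).symm
  have h1 : ∑' w, Set.indicator {[]} F w = F [] := by
    rw [tsum_eq_single []]
    · simp
    · intro w hw
      have hw2 : w ∉ ({[]} : Set (List A)) := hw
      exact Set.indicator_of_notMem hw2 F
  have h2 := hinj.tsum_eq (f := Set.indicator {[]}ᶜ F) (by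
    intro w hw
    cases w with
    | nil => simp at hw
    | cons a w => exact ⟨(a, w), rfl⟩)
  have h3 : ∀ c : A × List A, Set.indicator {[]}ᶜ F (c.1 :: c.2) = F (c.1 :: c.2) := by
    intro c
    apply Set.indicator_of_mem
    simp
  simp only [h3] at h2
  rw [h0, h1, ← h2, ENNReal.tsum_prod (f := fun a w => F (a :: w))]

section Proof

open Classical

variable (S : TileSystem)

theorem mem_binders {α : Assembly S.k} {p : Pos} {t : Fin S.k} :
    t ∈ binders S α p ↔ CanBind S α p t := by
  unfold binders
  rw [Finset.mem_filter]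
  exact ⟨fun h => h.2, fun h => ⟨Finset.mem_univ _, h⟩⟩

theorem tsum_step (ρ : Fin S.k → NNReal) (α : Assembly S.k) :
    ∑' a : Pos × Fin S.k, stepProb S ρ α a.1 a.2 ≤ 1 := by
  rw [ENNReal.tsum_prod (f := fun p t => stepProb S ρ α p t)]
  have h1 : ∀ p, ∑' t, stepProb S ρ α p t ≤
      (frontier S α).indicator (fun _ => ((frontier S α).encard : ℝ≥0∞)⁻¹) p := by
    intro p
    have h2 : ∑' t, stepProb S ρ α p t = ∑ t ∈ binders S α p, stepProb S ρ α p t := by
      refine tsum_eq_sum fun t ht => ?_
      unfold stepProb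
      rw [if_neg]
      intro h
      exact ht ((mem_binders S).2 h)
    rw [h2]
    by_cases hp : p ∈ frontier S α
    · rw [Set.indicator_of_mem hp]
      have h3 : ∑ t ∈ binders S α p, stepProb S ρ α p t =
          ((frontier S α).encard : ℝ≥0∞)⁻¹ * ((∑ t ∈ binders S α p, (ρ t : ℝ≥0∞)) /
            ∑ t' ∈ binders S α p, (ρ t' : ℝ≥0∞)) := by
        rw [ENNReal.div_eq_inv_mul, Finset.mul_sum, Finset.mul_sum]
        refine Finset.sum_congr rfl fun t ht => ?_
        unfold stepProb
        rw [if_pos ((mem_binders S).1 ht), ENNReal.div_eq_inv_mul]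
      rw [h3]
      calc _ ≤ ((frontier S α).encard : ℝ≥0∞)⁻¹ * 1 :=
            mul_le_mul_right ENNReal.div_self_le_one _
        _ = _ := mul_one _
    · rw [Set.indicator_of_notMem hp]
      have : binders S α p = ∅ := by
        rw [Finset.eq_empty_iff_forall_notMem]
        intro t ht
        exact hp ⟨t, (mem_binders S).1 ht⟩
      rw [this]
      simp
  calc ∑' p, ∑' t, stepProb S ρ α p t
      ≤ ∑' p, (frontier S α).indicator (fun _ => ((frontier S α).encard : ℝ≥0∞)⁻¹) p :=
        ENNReal.tsum_le_tsum h1
    _ = ∑' _ : frontier S α, ((frontier S α).encard : ℝ≥0∞)⁻¹ := by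
        rw [← tsum_subtype]
    _ ≤ 1 := by
        rw [ENNReal.tsum_set_const]
        exact ENNReal.mul_inv_le_one _

/-- Truncated total probability. -/
noncomputable def trunc (ρ : Fin S.k → NNReal) (k : ℕ) (α : Assembly S.k) : ℝ≥0∞ :=
  ∑' w : List (Pos × Fin S.k),
    if w.length ≤ k ∧ Terminal S (run α w) then weight S ρ α w else 0

theorem trunc_le (ρ : Fin S.k → NNReal) (k : ℕ) : ∀ α, trunc S ρ k α ≤ 1 := by
  induction k with
  | zero =>
    intro α
    unfold trunc
    rw [tsum_list]
    have : ∀ (a : Pos × Fin S.k) (w : List (Pos × Fin S.k)),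
        (if (a :: w).length ≤ 0 ∧ Terminal S (run α (a :: w)) then weight S ρ α (a :: w) else 0)
          = 0 := by
      intro a w
      rw [if_neg]
      simp
    simp only [this, tsum_zero, add_zero]
    split_ifs
    · exact le_refl _
    · exact zero_le_one
  | succ k ih =>
    intro α
    unfold trunc
    rw [tsum_list]
    have h1 : ∀ a : Pos × Fin S.k, ∑' w : List (Pos × Fin S.k),
        (if (a :: w).length ≤ k + 1 ∧ Terminal S (run α (a :: w)) then
          weight S ρ α (a :: w) else 0) ≤ stepProb S ρ α a.1 a.2 := by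
      intro a
      have h2 : ∀ w : List (Pos × Fin S.k),
          (if (a :: w).length ≤ k + 1 ∧ Terminal S (run α (a :: w)) then
          weight S ρ α (a :: w) else 0) = stepProb S ρ α a.1 a.2 *
          (if w.length ≤ k ∧ Terminal S (run (add α a.1 a.2) w) then
            weight S ρ (add α a.1 a.2) w else 0) := by
        intro w
        have h3 : (a :: w).length ≤ k + 1 ↔ w.length ≤ k := by simp
        have h4 : run α (a :: w) = run (add α a.1 a.2) w := rfl
        have h5 : weight S ρ α (a :: w) = stepProb S ρ α a.1 a.2 *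
          weight S ρ (add α a.1 a.2) w := rfl
        rw [h4, h5]
        simp only [h3]
        split_ifs
        · rfl
        · rw [mul_zero]
      simp only [h2]
      rw [ENNReal.tsum_mul_left]
      calc _ ≤ stepProb S ρ α a.1 a.2 * 1 := mul_le_mul_right (ih _) _
        _ = _ := mul_one _
    by_cases hT : Terminal S α
    · have h2 : ∀ a : Pos × Fin S.k, stepProb S ρ α a.1 a.2 = 0 := by
        intro a
        unfold stepProb
        rw [if_neg]
        intro h
        have : a.1 ∈ frontier S α := ⟨_, h⟩
        rw [hT] at this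
        exact this
      have h3 : ∑' a : Pos × Fin S.k, ∑' w : List (Pos × Fin S.k),
        (if (a :: w).length ≤ k + 1 ∧ Terminal S (run α (a :: w)) then
          weight S ρ α (a :: w) else 0) = 0 := by
        rw [ENNReal.tsum_eq_zero]
        intro a
        exact le_antisymm ((h1 a).trans (h2 a).le) (zero_le)
      rw [h3, add_zero]
      split_ifs
      · exact le_refl _
      · exact zero_le_one
    · rw [if_neg (fun h => hT h.2), zero_add]
      exact (ENNReal.tsum_le_tsum h1).trans (tsum_step S ρ α)

theorem prob_univ_le (ρ : Fin S.k → NNReal) : prob S ρ Set.univ ≤ 1 := by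
  unfold prob
  rw [ENNReal.tsum_eq_iSup_sum]
  refine iSup_le fun s => ?_
  refine le_trans ?_ (trunc_le S ρ (s.sup List.length) S.seed)
  unfold trunc
  refine le_trans (Finset.sum_le_sum fun w hw => ?_) (ENNReal.sum_le_tsum s)
  have h1 : w.length ≤ s.sup List.length := Finset.le_sup (f := List.length) hw
  by_cases h : Terminal S (run S.seed w)
  · rw [if_pos ⟨h, Set.mem_univ _⟩, if_pos ⟨h1, h⟩]
  · rw [if_neg fun h' => h h'.1]
    exact zero_le

/-- Labels of the steps: the set of competing tile types and the chosen one. -/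
noncomputable def labels : Assembly S.k → List (Pos × Fin S.k) → List (Finset (Fin S.k) × Fin S.k)
  | _, [] => []
  | α, (p, t) :: w => (binders S α p, t) :: labels (add α p t) w

/-- The part of the weight that does not depend on the concentrations. -/
noncomputable def gw : Assembly S.k → List (Pos × Fin S.k) → ℝ≥0∞
  | _, [] => 1
  | α, (p, t) :: w => (if CanBind S α p t then ((frontier S α).encard : ℝ≥0∞)⁻¹ else 0) *
      gw (add α p t) w

/-- The factor of a label. -/
noncomputable def fac (ρ : Fin S.k → NNReal) (l : Finset (Fin S.k) × Fin S.k) : ℝ≥0∞ :=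
  (ρ l.2 : ℝ≥0∞) / ∑ t' ∈ l.1, (ρ t' : ℝ≥0∞)

theorem weight_eq (ρ : Fin S.k → NNReal) (w : List (Pos × Fin S.k)) : ∀ α,
    weight S ρ α w = gw S α w * ((labels S α w : Multiset _).map (fac S ρ)).prod := by
  induction w with
  | nil => intro α; simp [weight, gw, labels]
  | cons a w ih =>
    intro α
    obtain ⟨p, t⟩ := a
    show stepProb S ρ α p t * weight S ρ (add α p t) w =
      ((if CanBind S α p t then ((frontier S α).encard : ℝ≥0∞)⁻¹ else 0) *
      gw S (add α p t) w) * (((binders S α p, t) :: labels S (add α p t) w : Multiset _).map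
        (fac S ρ)).prod
    rw [ih, ← Multiset.cons_coe, Multiset.map_cons, Multiset.prod_cons]
    unfold stepProb
    split_ifs
    · show ((frontier S α).encard : ℝ≥0∞)⁻¹ * fac S ρ (binders S α p, t) * _ = _
      ring
    · simp

/-- Total concentration-free weight of the sequences with label multiset `c` ending in `E`. -/
noncomputable def GG (E : Set (Assembly S.k)) (c : Multiset (Finset (Fin S.k) × Fin S.k)) : ℝ≥0∞ :=
  ∑' w : List (Pos × Fin S.k),
    if (labels S S.seed w : Multiset _) = c ∧ Terminal S (run S.seed w) ∧ run S.seed w ∈ E then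
      gw S S.seed w else 0

theorem prob_eq (ρ : Fin S.k → NNReal) (E : Set (Assembly S.k)) :
    prob S ρ E = ∑' c : Multiset (Finset (Fin S.k) × Fin S.k),
      (c.map (fac S ρ)).prod * GG S E c := by
  unfold prob GG
  simp only [← ENNReal.tsum_mul_left]
  rw [ENNReal.tsum_comm]
  refine tsum_congr fun w => ?_
  rw [tsum_eq_single (labels S S.seed w : Multiset _)]
  · by_cases h : Terminal S (run S.seed w) ∧ run S.seed w ∈ E
    · rw [if_pos h, if_pos ⟨rfl, h⟩, weight_eq, mul_comm]
    · rw [if_neg h, if_neg fun h' => h h'.2, mul_zero]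
  · intro c hc
    rw [if_neg fun h' => hc h'.1.symm, mul_zero]

theorem exists_label {ρ : Fin S.k → NNReal} {E : Set (Assembly S.k)} (h : 1 / 2 < prob S ρ E) :
    ∃ c, GG S Set.univ c / 2 < GG S E c := by
  by_contra hcon
  push Not at hcon
  have h1 : prob S ρ E ≤ prob S ρ Set.univ / 2 := by
    rw [prob_eq, prob_eq, ENNReal.div_eq_inv_mul, ← ENNReal.tsum_mul_left]
    refine ENNReal.tsum_le_tsum fun c => ?_
    calc (c.map (fac S ρ)).prod * GG S E c ≤ (c.map (fac S ρ)).prod * (GG S Set.univ c / 2) :=
          mul_le_mul_right (hcon c) _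
      _ = 2⁻¹ * ((c.map (fac S ρ)).prod * GG S Set.univ c) := by
          rw [ENNReal.div_eq_inv_mul]
          ring
  have h2 : prob S ρ Set.univ / 2 ≤ 1 / 2 := ENNReal.div_le_div_right (prob_univ_le S ρ) 2
  exact absurd (h.trans_le (h1.trans h2)) (lt_irrefl _)

theorem GG_disjoint {E E' : Set (Assembly S.k)} (hd : Disjoint E E')
    (c : Multiset (Finset (Fin S.k) × Fin S.k)) :
    GG S E c + GG S E' c ≤ GG S Set.univ c := by
  unfold GG
  rw [← ENNReal.tsum_add]
  refine ENNReal.tsum_le_tsum fun w => ?_
  by_cases h1 : (labels S S.seed w : Multiset _) = c ∧ Terminal S (run S.seed w)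
  · rw [if_pos (c := (labels S S.seed w : Multiset _) = c ∧ Terminal S (run S.seed w) ∧
      run S.seed w ∈ Set.univ) ⟨h1.1, h1.2, Set.mem_univ _⟩]
    by_cases hE : run S.seed w ∈ E
    · have hE' : run S.seed w ∉ E' := fun h => Set.disjoint_left.1 hd hE h
      rw [if_pos ⟨h1.1, h1.2, hE⟩, if_neg fun h => hE' h.2.2, add_zero]
    · rw [if_neg fun h => hE h.2.2, zero_add]
      split_ifs
      · exact le_refl _
      · exact zero_le
  · rw [if_neg fun h => h1 ⟨h.1, h.2.1⟩, if_neg fun h => h1 ⟨h.1, h.2.1⟩, zero_add]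
    exact zero_le

theorem label_unique {E E' : Set (Assembly S.k)} (hd : Disjoint E E')
    {c : Multiset (Finset (Fin S.k) × Fin S.k)} (h : GG S Set.univ c / 2 < GG S E c)
    (h' : GG S Set.univ c / 2 < GG S E' c) : False := by
  have h1 := ENNReal.add_lt_add h h'
  rw [ENNReal.add_halves] at h1
  exact absurd (h1.trans_le (GG_disjoint S hd c)) (lt_irrefl _)

theorem labels_spec (w : List (Pos × Fin S.k)) : ∀ α, (dom α).Finite → gw S α w ≠ 0 →
    (dom (run α w)).Finite ∧ (dom (run α w)).ncard = (dom α).ncard + w.length ∧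
    (labels S α w).length = w.length := by
  induction w with
  | nil =>
    intro α hf _
    exact ⟨hf, rfl, rfl⟩
  | cons a w ih =>
    intro α hf hg
    obtain ⟨p, t⟩ := a
    have hg' : (if CanBind S α p t then ((frontier S α).encard : ℝ≥0∞)⁻¹ else 0) *
      gw S (add α p t) w ≠ 0 := hg
    have hb : CanBind S α p t := by
      by_contra h
      rw [if_neg h, zero_mul] at hg'
      exact hg' rfl
    have hg2 : gw S (add α p t) w ≠ 0 := right_ne_zero_of_mul hg'
    have hdom : dom (add α p t) = insert p (dom α) := by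
      ext q
      unfold dom add
      by_cases hq : q = p
      · subst hq
        simp
      · simp [hq]
    have hp : p ∉ dom α := fun h => h hb.1
    have hf2 : (dom (add α p t)).Finite := by
      rw [hdom]
      exact hf.insert p
    obtain ⟨h1, h2, h4⟩ := ih _ hf2 hg2
    refine ⟨h1, ?_, ?_⟩
    · show (dom (run (add α p t) w)).ncard = _
      rw [h2, hdom, Set.ncard_insert_of_notMem hp hf, List.length_cons]
      ring
    · show ((binders S α p, t) :: labels S (add α p t) w).length = _
      rw [List.length_cons, h4, List.length_cons]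

theorem seed_finite : (dom S.seed).Finite := by
  refine (Set.finite_singleton S.seedPos).subset ?_
  intro p hp
  by_contra h
  apply hp
  unfold TileSystem.seed add
  rw [Function.update_of_ne h]

theorem prob_inter {ρ : Fin S.k → NNReal} {E E' : Set (Assembly S.k)}
    (h : ENNReal.ofReal (1 - 1 / 5) ≤ prob S ρ E) (h' : ENNReal.ofReal (1 - 1 / 5) ≤ prob S ρ E') :
    1 / 2 < prob S ρ (E ∩ E') := by
  have h1 : prob S ρ E + prob S ρ E' ≤ prob S ρ (E ∩ E') + prob S ρ Set.univ := by
    unfold prob
    rw [← ENNReal.tsum_add, ← ENNReal.tsum_add]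
    refine ENNReal.tsum_le_tsum fun w => ?_
    by_cases hT : Terminal S (run S.seed w)
    · by_cases hE : run S.seed w ∈ E <;> by_cases hE' : run S.seed w ∈ E' <;>
        simp [hT, hE, hE']
    · simp [hT]
  have h2 : ENNReal.ofReal (1 - 1 / 5) + ENNReal.ofReal (1 - 1 / 5) ≤
      prob S ρ (E ∩ E') + 1 :=
    (add_le_add h h').trans (h1.trans (add_le_add_right (prob_univ_le S ρ) _))
  by_contra hcon
  rw [not_lt] at hcon
  have h3 : ENNReal.ofReal (1 - 1 / 5) + ENNReal.ofReal (1 - 1 / 5) ≤ 1 / 2 + 1 :=
    h2.trans (add_le_add_left hcon _)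
  rw [← ENNReal.ofReal_add (by norm_num) (by norm_num)] at h3
  have h4 : (1 / 2 + 1 : ℝ≥0∞) = ENNReal.ofReal (3 / 2) := by
    rw [show (3 / 2 : ℝ) = 1 / 2 + 1 by norm_num, ENNReal.ofReal_add (by norm_num) (by norm_num),
      ENNReal.ofReal_one, ENNReal.ofReal_div_of_pos (by norm_num), ENNReal.ofReal_one,
      ENNReal.ofReal_ofNat]
  rw [h4, ENNReal.ofReal_le_ofReal_iff (by norm_num)] at h3
  norm_num at h3

end Proof

/-- With `δ = 1 / 5`: whenever the random terminal assembly of one tile system, read by one
function `r`, represents every `n` with probability at least `1 - δ`, there is `ε > 0` such that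
for infinitely many `n` the assembly has fewer than `n ^ ε` tiles with probability less than
`1 - δ`. -/
theorem result : ∃ δ : ℝ, 0 < δ ∧ δ < 1 ∧
    ∀ (S : TileSystem) (r : Assembly S.k → ℕ) (ρ : ℕ → Fin S.k → NNReal),
      (∀ n, ENNReal.ofReal (1 - δ) ≤ prob S (ρ n) {α | r α = n}) →
      ∃ ε : ℝ, 0 < ε ∧ ∃ᶠ n : ℕ in Filter.atTop,
        prob S (ρ n) {α | ((dom α).ncard : ℝ) < (n : ℝ) ^ ε} < ENNReal.ofReal (1 - δ) := by
  refine ⟨1 / 5, by norm_num, by norm_num, ?_⟩
  intro S r ρ hr
  set D := Fintype.card (Finset (Fin S.k) × Fin S.k) with hD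
  refine ⟨1 / (2 * D + 2 : ℕ), by positivity, ?_⟩
  by_contra hcon
  rw [Filter.not_frequently] at hcon
  obtain ⟨n0, hn0⟩ := Filter.eventually_atTop.1 hcon
  simp only [not_lt] at hn0
  -- labels for the large numbers
  have hex : ∀ n, n0 ≤ n → ∃ c : Multiset (Finset (Fin S.k) × Fin S.k),
      GG S Set.univ c / 2 < GG S ({α | r α = n} ∩
        {α | ((dom α).ncard : ℝ) < (n : ℝ) ^ ((1 : ℝ) / (2 * D + 2 : ℕ))}) c :=
    fun n hn => exists_label S (prob_inter S (hr n) (hn0 n hn))
  choose! c hc using hex
  have hcs : ∀ n, n0 ≤ n →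
      ((c n).card : ℝ) < (n : ℝ) ^ ((1 : ℝ) / (2 * D + 2 : ℕ)) := by
    intro n hn
    have h1 : 0 < GG S ({α | r α = n} ∩
        {α | ((dom α).ncard : ℝ) < (n : ℝ) ^ ((1 : ℝ) / (2 * D + 2 : ℕ))}) (c n) :=
      lt_of_le_of_lt (zero_le) (hc n hn)
    unfold GG at h1
    rw [pos_iff_ne_zero, Ne, ENNReal.tsum_eq_zero] at h1
    push Not at h1
    obtain ⟨w, hw⟩ := h1
    have h2 : ((labels S S.seed w : Multiset _) = c n ∧ Terminal S (run S.seed w) ∧
        run S.seed w ∈ ({α | r α = n} ∩
        {α | ((dom α).ncard : ℝ) < (n : ℝ) ^ ((1 : ℝ) / (2 * D + 2 : ℕ))})) := by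
      by_contra h
      rw [if_neg h] at hw
      exact hw rfl
    rw [if_pos h2] at hw
    obtain ⟨h3, h4, h5⟩ := h2
    obtain ⟨s1, s2, s4⟩ := labels_spec S w S.seed (seed_finite S) hw
    rw [← h3, Multiset.coe_card, s4]
    refine lt_of_le_of_lt ?_ h5.2
    rw [s2]
    push_cast
    linarith [Nat.cast_nonneg (α := ℝ) (dom S.seed).ncard]
  have hinj : ∀ n m, n0 ≤ n → n0 ≤ m → c n = c m → n = m := by
    intro n m hn hm h
    by_contra hne
    refine label_unique S (c := c n) ?_ (hc n hn) (h ▸ hc m hm)
    rw [Set.disjoint_left]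
    rintro α ⟨h1, -⟩ ⟨h2, -⟩
    exact hne (h1.symm.trans h2)
  -- counting
  set M := n0 + 2 with hM
  set N := M ^ (2 * D + 2) with hN
  have hpow : ∀ n, n ≤ N → (n : ℝ) ^ ((1 : ℝ) / (2 * D + 2 : ℕ)) ≤ M := by
    intro n hn
    have h1 : (n : ℝ) ^ ((1 : ℝ) / (2 * D + 2 : ℕ)) ≤ (N : ℝ) ^ ((1 : ℝ) / (2 * D + 2 : ℕ)) :=
      Real.rpow_le_rpow (Nat.cast_nonneg _) (by exact_mod_cast hn) (by positivity)
    refine h1.trans ?_
    rw [hN]
    push_cast
    rw [one_div]
    have := Real.pow_rpow_inv_natCast (x := (M : ℝ)) (n := 2 * D + 2) (Nat.cast_nonneg _)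
      (by omega)
    push_cast at this
    rw [this]
  have hcount : (Finset.Icc n0 N).card ≤ M ^ D := by
    have h1 : (Finset.Icc n0 N).card ≤
        Fintype.card (Finset (Fin S.k) × Fin S.k → Fin M) := by
      rw [← Finset.card_univ]
      refine Finset.card_le_card_of_injOn (fun n b => if h : (c n).count b < M then
        ⟨(c n).count b, h⟩ else ⟨0, by omega⟩) (fun _ _ => Finset.mem_coe.2
          (Finset.mem_univ _)) ?_
      intro n hn m hm h
      have hn' := Finset.mem_Icc.1 (Finset.mem_coe.1 hn)
      have hm' := Finset.mem_Icc.1 (Finset.mem_coe.1 hm)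
      have hlt : ∀ k, n0 ≤ k → k ≤ N → ∀ b, (c k).count b < M := by
        intro k hk hkN b
        have h2 := hcs k hk
        have h3 := hpow k hkN
        have h4 : ((c k).card : ℝ) < M := h2.trans_le h3
        have h5 : (c k).card < M := by exact_mod_cast h4
        exact lt_of_le_of_lt (Multiset.count_le_card _ _) h5
      refine hinj n m hn'.1 hm'.1 ?_
      ext b
      have h6 := congrFun h b
      simp only [dif_pos (hlt n hn'.1 hn'.2 b), dif_pos (hlt m hm'.1 hm'.2 b)] at h6
      exact congrArg Fin.val h6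
    refine h1.trans ?_
    rw [Fintype.card_fun, Fintype.card_fin]
  rw [Nat.card_Icc] at hcount
  have h1 : M ^ (2 * D + 2) = M ^ D * (M ^ D * (M * M)) := by ring
  have h2 : 1 ≤ M ^ D := Nat.one_le_pow _ _ (by omega)
  have h3 : M ^ D * 1 ≤ M ^ D * (M ^ D) := Nat.mul_le_mul_left _ h2
  have h4 : N = M ^ D * (M ^ D * (M * M)) := by rw [hN, h1]
  have h5 : M ^ D * (M * M) ≤ N := by
    rw [h4]
    calc M ^ D * (M * M) = 1 * (M ^ D * (M * M)) := by ring
      _ ≤ M ^ D * (M ^ D * (M * M)) := Nat.mul_le_mul_right _ h2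
  have h6 : M ^ D + n0 < M ^ D * (M * M) := by
    have h7 : M ^ D * 1 + M ^ D * (M * M - 1) = M ^ D * (M * M) := by
      rw [← Nat.mul_add]
      congr 1
      have : 1 ≤ M * M := Nat.one_le_iff_ne_zero.2 (by positivity)
      omega
    have h8 : n0 < M * M - 1 := by
      have : M * 2 ≤ M * M := Nat.mul_le_mul_left _ (by omega)
      omega
    have h9 : 1 * (M * M - 1) ≤ M ^ D * (M * M - 1) := Nat.mul_le_mul_right _ h2
    omega
  omega

end Pool.Agent.Results.MP_c103f8_lc.NoSmallProgramming
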